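import Pool.Agent.helper61.CSW.W.SpecW

/-!
# Project csw: row SQS: long cycles with multiplier close to the unit circle (helper26)
-/

set_option autoImplicit false

open Complex Metric Set Filter Topology MeasureTheory
open YPPS (fd fdd pre TT CV IsCyc rho Exact)
open MPS (BB)
open Pool.Agent.helper98.ILF (juliaSet fatouSet)

noncomputable section

open CSS (SE SV JJ)

namespace YW

lemma SQS_iter (f : SE) (z : ℂ) (m : ℕ) :
    HasDerivAt ((fun w : ℂ => f.eval w)^[m])
      (∏ j ∈ Finset.range m, fd f ((fun w : ℂ => f.eval w)^[j] z)) z := by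
  induction m with
  | zero => simpa using hasDerivAt_id z
  | succ m ih =>
    rw [Function.iterate_succ', Finset.prod_range_succ, mul_comm]
    exact HasDerivAt.comp z (f.hasDerivAt _) ih

lemma SQS_mlt (f : SE) (m : ℕ) (z : ℂ) :
    mlt f m z = ∏ j ∈ Finset.range m, fd f (it f j z) := (SQS_iter f z m).deriv

lemma SQS_it_add (f : SE) (a b : ℕ) (z : ℂ) : it f (a + b) z = it f a (it f b z) := by
  unfold it
  rw [Function.iterate_add_apply]

lemma SQS_mlt_add (f : SE) (a b : ℕ) (z : ℂ) :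
    mlt f (a + b) z = mlt f a (it f b z) * mlt f b z := by
  rw [SQS_mlt, SQS_mlt, SQS_mlt, add_comm a b, Finset.prod_range_add, mul_comm]
  congr 1
  apply Finset.prod_congr rfl
  intro j _
  rw [add_comm b j, SQS_it_add]

lemma SQS_mlt_mul (f : SE) (k l : ℕ) (z : ℂ) (hz : it f k z = z) :
    it f (l * k) z = z ∧ mlt f (l * k) z = (mlt f k z) ^ l := by
  induction l with
  | zero => exact ⟨by simp [it], by simp [SQS_mlt]⟩
  | succ l ih =>
    refine ⟨by rw [Nat.succ_mul, SQS_it_add, hz, ih.1], ?_⟩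
    rw [Nat.succ_mul, SQS_mlt_add, hz, ih.2, pow_succ]

/-- the forward orbit of a point of `E` stays in `E`. -/
lemma SQS_inE (f : SE) (E : Set ℂ) (hE : AE f E) (z : ℂ) (hz : z ∈ E) (n : ℕ) : it f n z ∈ E := by
  induction n with
  | zero => simpa [it] using hz
  | succ n ih =>
    have : it f (n + 1) z = f.eval (it f n z) := by
      unfold it
      rw [Function.iterate_succ_apply']
    rw [this]
    exact hE.inv _ ih

/-- SQS: if the uniform statement fails there are long cycles with multiplier close to the unit circle. -/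
theorem SQS (hZCS : ZCS_stmt) (hFNS : FNS_stmt) : SQS_stmt := by
  intro f E hE hrep hW k₀ ε hε
  -- periodic points and their minimal period
  have hper : ∀ (w : ℂ) (m : ℕ), 1 ≤ m → it f m w = w →
      0 < Function.minimalPeriod (fun w : ℂ => f.eval w) w ∧
      Function.minimalPeriod (fun w : ℂ => f.eval w) w ∣ m := by
    intro w m hm hw
    have h1 : Function.IsPeriodicPt (fun w : ℂ => f.eval w) m w := hw
    exact ⟨h1.minimalPeriod_pos (by omega), h1.minimalPeriod_dvd⟩
  have hit : ∀ w : ℂ, it f (Function.minimalPeriod (fun w : ℂ => f.eval w) w) w = w := fun w =>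
    Function.isPeriodicPt_minimalPeriod _ _
  have hgt : ∀ w : ℂ, w ∉ E → 0 < Function.minimalPeriod (fun w : ℂ => f.eval w) w →
      1 < ‖mlt f (Function.minimalPeriod (fun w : ℂ => f.eval w) w) w‖ := fun w hwE hw =>
    hrep w _ hw (hit w) hwE
  set Z : Set ℂ := (⋃ k ∈ Finset.Ico 1 k₀, {z : ℂ | it f k z = z ∧ ‖mlt f k z‖ ≤ 2}) \ E with hZ
  have hZfin : Z.Finite := by
    rw [hZ]
    apply Set.Finite.sdiff
    apply Set.Finite.biUnion (Finset.finite_toSet _)
    intro k hk
    exact hFNS f k (Finset.mem_Ico.1 (Finset.mem_coe.1 hk)).1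
  obtain ⟨δ₁, hδ₁, hδZ⟩ : ∃ δ₁ > (0 : ℝ), ∀ z ∈ Z,
      1 + δ₁ ≤ ‖mlt f (Function.minimalPeriod (fun w : ℂ => f.eval w) z) z‖ := by
    rcases Z.eq_empty_or_nonempty with h | h
    · exact ⟨1, one_pos, fun z hz => by rw [h] at hz; exact absurd hz (notMem_empty z)⟩
    · obtain ⟨z₀, hz₀, hmin⟩ := Set.exists_min_image Z
        (fun z => ‖mlt f (Function.minimalPeriod (fun w : ℂ => f.eval w) z) z‖) hZfin h
      have hz₀' : 0 < Function.minimalPeriod (fun w : ℂ => f.eval w) z₀ := by
        rw [hZ] at hz₀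
        obtain ⟨hz₁, -⟩ := hz₀
        simp only [mem_iUnion] at hz₁
        obtain ⟨k, hk, hk2⟩ := hz₁
        exact (hper z₀ k (Finset.mem_Ico.1 hk).1 hk2.1).1
      have h1 := hgt z₀ hz₀.2 hz₀'
      refine ⟨‖mlt f (Function.minimalPeriod (fun w : ℂ => f.eval w) z₀) z₀‖ - 1, by linarith, fun z hz => ?_⟩
      have := hmin z hz
      linarith
  set δ : ℝ := min δ₁ (min ε 1) with hδ
  have hδ0 : 0 < δ := by positivity
  unfold WG at hW
  push Not at hW
  obtain ⟨w, m, hm, hw, hwE, hlt⟩ := hW δ hδ0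
  obtain ⟨hk0, hdvd⟩ := hper w m hm hw
  set k : ℕ := Function.minimalPeriod (fun w : ℂ => f.eval w) w with hk
  obtain ⟨l, hl⟩ := hdvd
  have hl0 : 1 ≤ l := by
    rcases Nat.eq_zero_or_pos l with h | h
    · rw [h, mul_zero] at hl; omega
    · exact h
  have hitk : it f k w = w := hit w
  have hmm : mlt f m w = (mlt f k w) ^ l := by
    rw [hl, mul_comm, (SQS_mlt_mul f k l w hitk).2]
  have hkgt : 1 < ‖mlt f k w‖ := hgt w hwE hk0
  have hkle : ‖mlt f k w‖ ≤ ‖mlt f m w‖ := by
    rw [hmm, norm_pow]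
    exact le_self_pow₀ hkgt.le (by omega)
  have hk2 : ‖mlt f k w‖ < 1 + δ := hkle.trans_lt hlt
  have : NeZero k := ⟨hk0.ne'⟩
  have hne : mlt f k w ≠ 0 := by
    intro h
    rw [h, norm_zero] at hkgt
    linarith
  obtain ⟨b, hb, hb0, hbj, hrho⟩ := hZCS f k w ⟨hk0, rfl⟩ hne
  have hδε : δ ≤ ε := (min_le_right _ _).trans (min_le_left _ _)
  have hδ1 : δ ≤ 1 := (min_le_right _ _).trans (min_le_right _ _)
  have hδδ : δ ≤ δ₁ := min_le_left _ _
  refine ⟨k, ⟨hk0.ne'⟩, b, ?_, hb, ?_, ?_, ?_⟩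
  · by_contra hcon
    push Not at hcon
    have hwZ : w ∈ Z := by
      rw [hZ]
      refine ⟨?_, hwE⟩
      simp only [mem_iUnion]
      exact ⟨k, Finset.mem_Ico.2 ⟨hk0, hcon⟩, hitk, by linarith⟩
    have := hδZ w hwZ
    linarith
  · intro i hi
    -- `b i = f^j w` with `j = i.val`, and `f^(k - j) (b i) = w`
    have h1 : b i = it f i.val w := by
      have := hbj i.val
      rw [ZMod.natCast_zmod_val] at this
      exact this
    have h2 : it f (k - i.val) (b i) = w := by
      rw [h1, ← SQS_it_add, Nat.sub_add_cancel (ZMod.val_lt i).le, hitk]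
    exact hwE (h2 ▸ SQS_inE f E hE (b i) hi (k - i.val))
  · rw [hrho]
    exact hkgt
  · rw [hrho]
    linarith

end YW
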